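import Mathlib
import Pool.Agent.H250.MS.Curves

/-!
# Metric surfaces with pointwise finite lower area density are reciprocal

Each of the pointwise conditions (1), (2), (3) implies that a metric surface of locally finite
Hausdorff 2-measure is reciprocal, with a constant which does not depend on the surface.
-/

set_option autoImplicit false

open MeasureTheory Set Filter Topology Metric
open scoped ENNReal NNReal unitInterval

namespace Pool.Agent.Results.MP_f6a415_an.Reciprocal

universe u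

section Definitions

variable {X : Type u} [MetricSpace X]

/-- The restriction of `γ` to `[a,b]` is a rectifiable curve: it is continuous and its length
(the total variation) is finite. -/
structure RectCurve (γ : ℝ → X) (a b : ℝ) : Prop where
  le : a ≤ b
  cont : ContinuousOn γ (Icc a b)
  rect : eVariationOn γ (Icc a b) ≠ ∞

/-- The line integral of `ρ` along the restriction of `γ` to `[a,b]`: the integral over `[0,ℓ]`,
where `ℓ` is the length of the curve, of `ρ` composed with the parametrisation by arc length. -/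
noncomputable def lineInt (ρ : X → ℝ≥0∞) (γ : ℝ → X) (a b : ℝ) : ℝ≥0∞ :=
  ∫⁻ u in Icc 0 (eVariationOn γ (Icc a b)).toReal, ρ (naturalParameterization γ (Icc a b) a u)

/-- `ρ` is admissible for the family of the curves in `G` which join `E` and `F`. -/
def Admissible (E F G : Set X) (ρ : X → ℝ≥0∞) : Prop :=
  ∀ (γ : ℝ → X) (a b : ℝ), RectCurve γ a b → (∀ t ∈ Icc a b, γ t ∈ G) → γ a ∈ E → γ b ∈ F →
    1 ≤ lineInt ρ γ a b

/-- The four sides of the quadrilateral which is the image of the closed unit square under `φ`. -/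
def bottom (φ : C(I × I, X)) : Set X := range fun s : I => φ (s, 0)
def top (φ : C(I × I, X)) : Set X := range fun s : I => φ (s, 1)
def left (φ : C(I × I, X)) : Set X := range fun t : I => φ (0, t)
def right (φ : C(I × I, X)) : Set X := range fun t : I => φ (1, t)

variable [MeasurableSpace X] [BorelSpace X]

/-- The 2-modulus of the family of the curves in `G` which join `E` and `F`, with respect to the
Hausdorff 2-measure normalised to be Lebesgue measure on the plane. -/
noncomputable def Mod2 (E F G : Set X) : ℝ≥0∞ :=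
  ⨅ (ρ : X → ℝ≥0∞) (_ : Measurable ρ) (_ : Admissible E F G ρ), ∫⁻ x, ρ x ^ 2 ∂μHE[2]

/-- The area density of the ball of centre `x` and radius `r`. -/
noncomputable def dens (x : X) (r : ℝ) : ℝ≥0∞ :=
  (μHE[2] : Measure X) (ball x r) / ENNReal.ofReal (Real.pi * r ^ 2)

variable (X)

/-- Condition (1). -/
def Cond1 : Prop := ∀ x : X, limsup (dens x) (𝓝[>] 0) < ∞

/-- Condition (2). -/
def Cond2 : Prop := ∃ C : ℝ≥0, ∀ x : X, liminf (dens x) (𝓝[>] 0) ≤ C

/-- Condition (3). -/
def Cond3 : Prop := ∀ x : X, liminf (dens x) (𝓝[>] 0) < ∞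

/-- `X` is reciprocal, with the constant `κ` in (R1). -/
structure ReciprocalWith (κ : ℝ≥0) : Prop where
  one_le : 1 ≤ κ
  r1_lower : ∀ φ : C(I × I, X), Function.Injective φ →
    (κ : ℝ≥0∞)⁻¹ ≤ Mod2 (bottom φ) (top φ) (range φ) * Mod2 (left φ) (right φ) (range φ)
  r1_upper : ∀ φ : C(I × I, X), Function.Injective φ →
    Mod2 (bottom φ) (top φ) (range φ) * Mod2 (left φ) (right φ) (range φ) ≤ κ
  r2 : ∀ (a : X) (R : ℝ), 0 < R →
    Tendsto (fun r => Mod2 (closedBall a r) (ball a R)ᶜ univ) (𝓝[>] 0) (𝓝 0)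

end Definitions

open Pool.Agent.H250

section Proofs

variable {X : Type u} [MetricSpace X]

theorem adm_iff (E F G : Set X) (ρ : X → ℝ≥0∞) : Admissible E F G ρ ↔ MS.Adm E F G ρ := by
  constructor
  · intro h γ a b hγ
    exact h γ a b ⟨hγ.le, hγ.cont, hγ.rect⟩
  · intro h γ a b hγ
    exact h γ a b ⟨hγ.le, hγ.cont, hγ.rect⟩

variable [MeasurableSpace X] [BorelSpace X]

/-- the normalising factor -/
noncomputable def fac : ℝ≥0 :=
  Measure.addHaarScalarFactor (volume : Measure (EuclideanSpace ℝ (Fin 2))) μH[(2 : ℕ)]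

theorem fac_ne_zero : fac ≠ 0 :=
  Measure.addHaarScalarFactor_volume_hausdorffMeasure_ne_zero 2

theorem mu_eq : (μHE[2] : Measure X) = fac • μH[2] := by
  rw [Measure.euclideanHausdorffMeasure_def]
  norm_num [fac]

theorem mod2_eq (E F G : Set X) : Mod2 E F G = fac * MS.LMod (μH[2] : Measure X) E F G := by
  rw [← MS.lmod_smul fac fac_ne_zero, ← mu_eq, ← MS.mod_eq]
  unfold Mod2 MS.Mod
  exact iInf_congr fun ρ => iInf_congr fun _ =>
    iInf_congr_Prop (adm_iff E F G ρ) fun _ => rfl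

theorem exists_freq {x : X} (h : liminf (dens x) (𝓝[>] 0) < ∞) :
    ∃ n : ℕ, ∃ᶠ r in 𝓝[>] (0:ℝ), (μH[2] : Measure X) (ball x r) ≤ n * ENNReal.ofReal (r ^ 2) := by
  have hf0 : (fac : ℝ≥0∞) ≠ 0 := by exact_mod_cast fac_ne_zero
  have hft : (fac : ℝ≥0∞) ≠ ∞ := ENNReal.coe_ne_top
  obtain ⟨n, hn⟩ := ENNReal.exists_nat_gt h.ne
  have h1 : ∃ᶠ r in 𝓝[>] (0:ℝ), dens x r < n := frequently_lt_of_liminf_lt (by isBoundedDefault) hn
  obtain ⟨m, hm⟩ := ENNReal.exists_nat_gt
    (show (fac : ℝ≥0∞)⁻¹ * (n * ENNReal.ofReal Real.pi) ≠ ∞ by finiteness)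
  refine ⟨m, (h1.and_eventually self_mem_nhdsWithin).mono fun r hr => ?_⟩
  obtain ⟨h2, h3⟩ := hr
  have hr0 : (0:ℝ) < r := h3
  have hpos : 0 < Real.pi * r ^ 2 := by positivity
  have h4 : (μHE[2] : Measure X) (ball x r) ≤ n * ENNReal.ofReal (Real.pi * r ^ 2) := by
    have h5 := h2.le
    unfold dens at h5
    rwa [ENNReal.div_le_iff (ENNReal.ofReal_pos.2 hpos).ne' ENNReal.ofReal_ne_top] at h5
  rw [mu_eq, Measure.smul_apply, ENNReal.smul_def, smul_eq_mul, ENNReal.ofReal_mul Real.pi_pos.le] at h4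
  calc (μH[2] : Measure X) (ball x r) = (fac : ℝ≥0∞)⁻¹ * (fac * (μH[2] : Measure X) (ball x r)) := by
        rw [← mul_assoc, ENNReal.inv_mul_cancel hf0 hft, one_mul]
    _ ≤ (fac : ℝ≥0∞)⁻¹ * (n * (ENNReal.ofReal Real.pi * ENNReal.ofReal (r ^ 2))) := by gcongr
    _ = ((fac : ℝ≥0∞)⁻¹ * (n * ENNReal.ofReal Real.pi)) * ENNReal.ofReal (r ^ 2) := by ring
    _ ≤ m * ENNReal.ofReal (r ^ 2) := by gcongr

end Proofs

/-- There is a universal constant `κ` such that every metric space of locally finite Hausdorff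
2-measure, in particular every metric surface, which satisfies one of the conditions (1), (2), (3)
is reciprocal with the constant `κ`. -/
theorem result : ∃ κ : ℝ≥0, ∀ (X : Type u) [MetricSpace X] [MeasurableSpace X] [BorelSpace X],
    IsLocallyFiniteMeasure (μHE[2] : Measure X) →
      (Cond1 X → ReciprocalWith X κ) ∧ (Cond2 X → ReciprocalWith X κ) ∧
        (Cond3 X → ReciprocalWith X κ) := by
  have hf0 : (fac : ℝ≥0∞) ≠ 0 := by exact_mod_cast fac_ne_zero
  have hft : (fac : ℝ≥0∞) ≠ ∞ := ENNReal.coe_ne_top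
  set κ : ℝ≥0 := max 1 (max (fac * fac * ((8 * 500000 ^ 2 + 1) / 25)) (fac * fac)⁻¹) with hκ
  refine ⟨κ, fun X _ _ _ hloc => ?_⟩
  have key : Cond3 X → ReciprocalWith X κ := by
    intro h
    have hden : ∀ x : X, ∃ n : ℕ, ∃ᶠ r in 𝓝[>] (0:ℝ),
        (μH[2] : Measure X) (ball x r) ≤ n * ENNReal.ofReal (r ^ 2) := fun x => exists_freq (h x)
    have hfin : ∀ φ : C(I × I, X), (μH[2] : Measure X) (range φ) ≠ ∞ := by
      intro φ h1
      have h2 : (μHE[2] : Measure X) (range φ) < ∞ := (isCompact_range φ.continuous).measure_lt_top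
      rw [mu_eq, Measure.smul_apply, ENNReal.smul_def, smul_eq_mul, h1, ENNReal.mul_top hf0] at h2
      exact lt_irrefl _ h2
    have hprod : ∀ φ : C(I × I, X),
        Mod2 (bottom φ) (top φ) (range φ) * Mod2 (left φ) (right φ) (range φ) =
        (fac * fac : ℝ≥0) * (MS.LMod ((μH[2] : Measure X).restrict (range φ)) (MS.bottom φ)
          (MS.top φ) (range φ) * MS.LMod ((μH[2] : Measure X).restrict (range φ)) (MS.left φ)
          (MS.right φ) (range φ)) := by
      intro φ
      have hm : MeasurableSet (range φ) := (isCompact_range φ.continuous).measurableSet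
      rw [mod2_eq, mod2_eq, MS.lmod_restrict (μH[2] : Measure X) (E := bottom φ) hm,
        MS.lmod_restrict (μH[2] : Measure X) (E := left φ) hm, ENNReal.coe_mul]
      show fac * MS.LMod _ (MS.bottom φ) (MS.top φ) _ * (fac * MS.LMod _ (MS.left φ) (MS.right φ) _) = _
      ring
    refine ⟨le_max_left _ _, fun φ hφ => ?_, fun φ hφ => ?_, fun a R hR => ?_⟩
    · have h1 := MS.quad_lower φ hφ (hfin φ)
      rw [hprod]
      have h2 : (κ : ℝ≥0∞)⁻¹ ≤ ((fac * fac : ℝ≥0) : ℝ≥0∞) := by
        rw [ENNReal.inv_le_iff_inv_le, ← ENNReal.coe_inv (mul_ne_zero fac_ne_zero fac_ne_zero)]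
        exact_mod_cast (le_max_right _ _).trans (le_max_right _ _)
      calc (κ : ℝ≥0∞)⁻¹ ≤ ((fac * fac : ℝ≥0) : ℝ≥0∞) * 1 := by rwa [mul_one]
        _ ≤ _ := by gcongr
    · have h1 := MS.quad_upper φ hφ (hfin φ) (fun x _ => hden x)
      rw [hprod]
      calc _ ≤ ((fac * fac : ℝ≥0) : ℝ≥0∞) * ((8 * 500000 ^ 2 + 1) / 25) := by gcongr
        _ = ((fac * fac * ((8 * 500000 ^ 2 + 1) / 25) : ℝ≥0) : ℝ≥0∞) := by
            rw [ENNReal.coe_mul (fac * fac), ENNReal.coe_div (by norm_num)]
            norm_num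
        _ ≤ κ := ENNReal.coe_le_coe.2 ((le_max_left _ _).trans (le_max_right _ _))
    · obtain ⟨n, hn⟩ := hden a
      have h1 := MS.r_two (μH[2] : Measure X) (ENNReal.natCast_ne_top n) hn hR
      have h2 : Tendsto (fun r => (fac : ℝ≥0∞) * MS.LMod (μH[2] : Measure X) (closedBall a r)
          (ball a R)ᶜ univ) (𝓝[>] 0) (𝓝 ((fac : ℝ≥0∞) * 0)) :=
        ENNReal.Tendsto.const_mul h1 (Or.inr hft)
      rw [mul_zero] at h2
      simpa only [mod2_eq] using h2
  refine ⟨fun h => key fun x => ?_, fun h => key fun x => ?_, key⟩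
  · exact (liminf_le_limsup).trans_lt (h x)
  · obtain ⟨C, hC⟩ := h
    exact (hC x).trans_lt ENNReal.coe_lt_top

end Pool.Agent.Results.MP_f6a415_an.Reciprocal
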